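import Pool.Agent.MP_151d89_pr.H21.Corner

/-!
A one dimensional estimate for the second moment of the variation along a random run.
-/

set_option autoImplicit false
open Finset

namespace Pool.Agent.MP_151d89_pr.H20

theorem tele {T Q : ℕ → ℝ} (hQ : ∀ j, Q j = T j + Q (j + 1)) (M : ℕ) :
    ∑ t ∈ range M, T t + Q M = Q 0 := by
  induction M with
  | zero => simp
  | succ M ih => rw [sum_range_succ, ← ih, hQ M]; ring

theorem abel {T Q F : ℕ → ℝ} (hQ : ∀ j, Q j = T j + Q (j + 1)) (h0 : F 0 = 0) (M : ℕ) :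
    ∑ t ∈ range M, T t * F t + Q M * F M = ∑ j ∈ range M, Q (j + 1) * (F (j + 1) - F j) := by
  induction M with
  | zero => simp [h0]
  | succ M ih => rw [sum_range_succ, sum_range_succ, ← ih, hQ M]; ring

/-- a summable majorant of the corner bound -/
theorem exists_g : ∃ (g : ℕ → ℝ) (G : ℝ), (∀ i, 0 ≤ g i) ∧
    (∀ i l : ℕ, i ≤ l → ((l : ℝ) + 1) * (1 / 2) ^ ((l + 1) / 16) ≤ g i) ∧
    ∀ M, ∑ i ∈ range M, g i ≤ G := by
  have hs := (summable_geometric_of_lt_one (Real.exp_pos (-1 / 48)).le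
    (Real.exp_lt_one_iff.2 (by norm_num))).mul_left 96
  refine ⟨fun i => 96 * Real.exp (-1 / 48) ^ i, _, fun i => by positivity, fun i l hi => ?_,
    fun M => hs.sum_le_tsum _ fun i _ => by positivity⟩
  have h1 := H21.half_exp (l + 1)
  have h2 := Real.add_one_le_exp (((l : ℝ) + 1) / 48)
  have h3 : Real.exp (((l : ℝ) + 1) / 48) * Real.exp (-(((l + 1 : ℕ) : ℝ) / 24)) ≤
      Real.exp (-1 / 48) ^ i := by
    rw [← Real.exp_nat_mul, ← Real.exp_add, Real.exp_le_exp]
    have : (i : ℝ) ≤ l := by exact_mod_cast hi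
    push_cast
    linarith
  beta_reduce
  have h4 := mul_le_mul (show (l : ℝ) + 1 ≤ 48 * Real.exp (((l : ℝ) + 1) / 48) by linarith) h1
    (by positivity) (by positivity)
  linarith

theorem one {T Q w h a g : ℕ → ℝ} {La G : ℝ} (hLa : 0 ≤ La) (hQ : ∀ j, Q j = T j + Q (j + 1))
    (hQ0 : ∀ j, 0 ≤ Q j) (hT0 : ∀ j, 0 ≤ T j) (hT1 : ∀ j, T j ≤ 1) (hw0 : ∀ j, 0 ≤ w j)
    (hw : ∀ j, w j ≤ La * h j) (hh0 : ∀ j, 0 ≤ h j) (hh : ∀ j, h j ≤ a j + 2)
    (hH : ∀ j, h (j + 1) * Q (j + 1) ≤ 2 * T j + T (j + 1))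
    (hR : ∀ j l : ℕ, l + 1 ≤ j → Q j * (a j - l) ≤
      (1 / 2) ^ ((l + 1) / 16) * ∑ i ∈ range (l + 1), T (j - 1 - i))
    (hg0 : ∀ i, 0 ≤ g i)
    (hg : ∀ i l : ℕ, i ≤ l → ((l : ℝ) + 1) * (1 / 2) ^ ((l + 1) / 16) ≤ g i)
    (hG : ∀ M, ∑ i ∈ range M, g i ≤ G) (M : ℕ) :
    ∑ t ∈ range M, T t * (∑ j ∈ range t, w (j + 1)) ^ 2 ≤
      (30 + 16 * G) * La ^ 2 * Q 0 + 4 * La * ∑ j ∈ range M, w (j + 1) * g j := by
  set S : ℕ → ℝ := fun t => ∑ j ∈ range t, w (j + 1) with hS
  have S0 : S 0 = 0 := by simp [hS]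
  have Ss : ∀ t, S (t + 1) = S t + w (t + 1) := fun t => by simp [hS, sum_range_succ]
  have Sn : ∀ t, 0 ≤ S t := fun t => sum_nonneg fun j _ => hw0 _
  have t1 : ∀ N, ∑ t ∈ range N, T t ≤ Q 0 := fun N => by linarith [tele hQ N, hQ0 N]
  have t2 : ∀ N, ∑ t ∈ range N, T (t + 1) ≤ Q 0 := fun N => by
    have := t1 (N + 1)
    rw [sum_range_succ'] at this
    linarith [hT0 0]
  have wq : ∀ j, Q (j + 1) * w (j + 1) ≤ La * (2 * T j + T (j + 1)) := fun j => by
    have := mul_le_mul_of_nonneg_left (hw (j + 1)) (hQ0 (j + 1))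
    have := mul_le_mul_of_nonneg_left (hH j) hLa
    nlinarith
  have b1 : ∀ N, ∑ t ∈ range N, T t * S t ≤ 3 * La * Q 0 := fun N => by
    have e := abel hQ S0 N
    have e2 : ∑ j ∈ range N, Q (j + 1) * (S (j + 1) - S j) ≤
        ∑ j ∈ range N, La * (2 * T j + T (j + 1)) :=
      sum_le_sum fun j _ => by rw [Ss, add_sub_cancel_left]; exact wq j
    rw [← mul_sum, sum_add_distrib, ← mul_sum] at e2
    have := mul_nonneg (hQ0 N) (Sn N)
    have := mul_le_mul_of_nonneg_left (t1 N) hLa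
    have := mul_le_mul_of_nonneg_left (t2 N) hLa
    nlinarith
  have b2 : ∑ j ∈ range M, Q (j + 1) * w (j + 1) * S j ≤ 9 * La ^ 2 * Q 0 := by
    have e : ∑ j ∈ range M, Q (j + 1) * w (j + 1) * S j ≤
        ∑ j ∈ range M, La * (2 * (T j * S j) + T (j + 1) * S (j + 1)) :=
      sum_le_sum fun j _ => by
        have := mul_le_mul_of_nonneg_right (wq j) (Sn j)
        have := mul_nonneg hLa (mul_nonneg (hT0 (j + 1)) (hw0 (j + 1)))
        rw [Ss]
        nlinarith
    rw [← mul_sum, sum_add_distrib, ← mul_sum] at e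
    have e1 := b1 (M + 1)
    rw [sum_range_succ', S0, mul_zero, add_zero] at e1
    have := mul_le_mul_of_nonneg_left (b1 M) hLa
    have := mul_le_mul_of_nonneg_left e1 hLa
    nlinarith
  have d : ∀ j, Q (j + 1) * w (j + 1) ^ 2 ≤ 4 * La ^ 2 * (2 * T j + T (j + 1)) +
      16 * La ^ 2 * ∑ i ∈ range (j + 1), g i * T (j - i) + 4 * La * (w (j + 1) * g j) := fun j => by
    have n1 : 0 ≤ 4 * La ^ 2 * (2 * T j + T (j + 1)) := by
      have := hT0 j
      have := hT0 (j + 1)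
      positivity
    have n2 : 0 ≤ 16 * La ^ 2 * ∑ i ∈ range (j + 1), g i * T (j - i) :=
      mul_nonneg (by positivity) (sum_nonneg fun i _ => mul_nonneg (hg0 _) (hT0 _))
    have n3 : 0 ≤ 4 * La * (w (j + 1) * g j) :=
      mul_nonneg (by positivity) (mul_nonneg (hw0 _) (hg0 _))
    have q0 := hQ0 (j + 1)
    have w0 := hw0 (j + 1)
    have w1 := hw (j + 1)
    have h0 := hh0 (j + 1)
    have h1 := hh (j + 1)
    by_cases c : a (j + 1) < 2
    · have e1 : w (j + 1) ≤ 4 * La := by nlinarith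
      have e2 := mul_le_mul_of_nonneg_left (wq j) (show 0 ≤ 4 * La by positivity)
      have e3 := mul_le_mul_of_nonneg_left e1 (mul_nonneg q0 w0)
      nlinarith
    · push Not at c
      set A := a (j + 1) with hA
      have w2 : w (j + 1) ≤ 2 * La * A := by nlinarith
      have f1 : ((⌊A / 2⌋₊ : ℕ) : ℝ) ≤ A / 2 := Nat.floor_le (by linarith)
      have f2 : A / 2 < (⌊A / 2⌋₊ : ℕ) + 1 := Nat.lt_floor_add_one _
      set l := ⌊A / 2⌋₊
      by_cases c2 : l ≤ j
      · have r := hR (j + 1) l (by omega)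
        simp only [Nat.add_sub_cancel] at r
        have r2 : ((l : ℝ) + 1) * ((1 / 2) ^ ((l + 1) / 16) * ∑ i ∈ range (l + 1), T (j - i)) ≤
            ∑ i ∈ range (j + 1), g i * T (j - i) := by
          rw [← mul_assoc, mul_sum]
          exact (sum_le_sum fun i hi => mul_le_mul_of_nonneg_right
            (hg i l (by have := mem_range.1 hi; omega)) (hT0 _)).trans
            (sum_le_sum_of_subset_of_nonneg (range_subset_range.2 (by omega))
              fun i _ _ => mul_nonneg (hg0 _) (hT0 _))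
        set X := (1 / 2 : ℝ) ^ ((l + 1) / 16) * ∑ i ∈ range (l + 1), T (j - i)
        have e1 : Q (j + 1) * A ≤ 2 * X := by nlinarith
        have e2 : Q (j + 1) * A * A ≤ 4 * ((l + 1) * X) := by
          have := mul_le_mul e1 (show A ≤ 2 * (l + 1) by linarith) (by linarith)
            ((mul_nonneg q0 (by linarith)).trans e1)
          linarith
        have e3 : w (j + 1) ^ 2 ≤ (2 * La * A) ^ 2 := pow_le_pow_left₀ w0 w2 2
        have e4 := mul_le_mul_of_nonneg_left e3 q0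
        have e5 := mul_le_mul_of_nonneg_left (e2.trans (mul_le_mul_of_nonneg_left r2
          (by norm_num))) (show 0 ≤ 4 * La ^ 2 by positivity)
        nlinarith
      · have r := hR (j + 1) j le_rfl
        have r1 : ∑ i ∈ range (j + 1), T (j + 1 - 1 - i) ≤ j + 1 := by
          simpa using sum_le_card_nsmul (range (j + 1)) (fun i => T (j + 1 - 1 - i)) 1
            fun i _ => hT1 _
        have r2 := mul_le_mul_of_nonneg_left r1
          (show (0 : ℝ) ≤ (1 / 2) ^ ((j + 1) / 16) by positivity)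
        have r3 := hg j j le_rfl
        have f3 : (j : ℝ) ≤ l := by exact_mod_cast (by omega : j ≤ l)
        have e1 : Q (j + 1) * A ≤ 2 * g j := by nlinarith
        have e2 := mul_le_mul_of_nonneg_left w2 (mul_nonneg q0 w0)
        have e3 := mul_le_mul_of_nonneg_left e1 (show 0 ≤ 2 * La * w (j + 1) by positivity)
        nlinarith
  have d2 : ∑ j ∈ range M, ∑ i ∈ range (j + 1), g i * T (j - i) ≤ G * Q 0 := by
    rw [sum_range_diag_flip M fun i k => g i * T k]
    calc _ ≤ ∑ i ∈ range M, g i * Q 0 := sum_le_sum fun i _ => by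
          rw [← mul_sum]; exact mul_le_mul_of_nonneg_left (t1 _) (hg0 i)
      _ ≤ _ := by rw [← sum_mul]; exact mul_le_mul_of_nonneg_right (hG M) (hQ0 0)
  have d3 := sum_le_sum fun j (_ : j ∈ range M) => d j
  simp only [sum_add_distrib, ← mul_sum] at d3
  have e := abel (F := fun t => S t ^ 2) hQ (by simp [S0]) M
  have e2 : ∑ j ∈ range M, Q (j + 1) * (S (j + 1) ^ 2 - S j ^ 2) =
      ∑ j ∈ range M, Q (j + 1) * w (j + 1) ^ 2 +
        2 * ∑ j ∈ range M, Q (j + 1) * w (j + 1) * S j := by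
    rw [mul_sum, ← sum_add_distrib]
    exact sum_congr rfl fun j _ => by rw [Ss]; ring
  have := mul_nonneg (hQ0 M) (sq_nonneg (S M))
  have := mul_le_mul_of_nonneg_left (t1 M) (sq_nonneg La)
  have := mul_le_mul_of_nonneg_left (t2 M) (sq_nonneg La)
  have := mul_le_mul_of_nonneg_left d2 (sq_nonneg La)
  change ∑ t ∈ range M, T t * S t ^ 2 ≤ _
  nlinarith

end Pool.Agent.MP_151d89_pr.H20
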