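import Pool.Agent.MP_151d89_pr.H20.One
import Pool.Agent.MP_151d89_pr.H67E.Spec

/-!
The oscillation energy of single towers.
-/

set_option autoImplicit false
open MeasureTheory Finset

namespace Pool.Agent.MP_151d89_pr.H20
open Pool.Agent.MP_151d89_pr.H82 Pool.Agent.MP_151d89_pr.H33 Pool.Agent.MP_151d89_pr.H67
  Pool.Agent.MP_151d89_pr.H30 Pool.Agent.MP_151d89_pr.H27 Pool.Agent.MP_151d89_pr.H45
  Pool.Agent.MP_151d89_pr.H67E
open Pool.Agent.MP_151d89_pr.H30W (Leg al Hi Lo fl NoDesc)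
open Classical

/-- the estimate for a finite family of runs, truncated -/
theorem two {P q : ℕ → ℕ → ℝ} {w h a g : ℕ → ℝ} {La G : ℝ} (N : ℕ) (hLa : 0 ≤ La)
    (hq : ∀ i j, q i j = P i j + q i (j + 1)) (hq0 : ∀ i j, 0 ≤ q i j) (hP0 : ∀ i j, 0 ≤ P i j)
    (hP1 : ∀ j, ∑ i ∈ range N, P i j ≤ 1) (hw0 : ∀ j, 0 ≤ w j)
    (hw : ∀ j, w j ≤ La * h j) (hh0 : ∀ j, 0 ≤ h j) (hh : ∀ j, h j ≤ a j + 2)
    (hH : ∀ i j, h (j + 1) * q i (j + 1) ≤ 2 * P i j + P i (j + 1))
    (hR : ∀ i j l : ℕ, l + 1 ≤ j → q i j * (a j - l) ≤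
      (1 / 2) ^ ((l + 1) / 16) * ∑ k ∈ range (l + 1), P i (j - 1 - k))
    (hg0 : ∀ i, 0 ≤ g i)
    (hg : ∀ i l : ℕ, i ≤ l → ((l : ℝ) + 1) * (1 / 2) ^ ((l + 1) / 16) ≤ g i)
    (hG : ∀ M, ∑ i ∈ range M, g i ≤ G) :
    ∑ j ∈ range N, (∑ i ∈ range N, P i j) * (∑ k ∈ range j, w (k + 1)) ^ 2 ≤
      (30 + 16 * G) * La ^ 2 * ∑ j ∈ range N, ∑ i ∈ range N, P i j +
        4 * La * ∑ j ∈ range N, w (j + 1) * g j := by
  set T : ℕ → ℝ := fun j => if j < N then ∑ i ∈ range N, P i j else 0 with hT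
  set Q : ℕ → ℝ := fun j => ∑ t ∈ Ico j N, ∑ i ∈ range N, P i t with hQ
  have s0 : ∀ j, 0 ≤ ∑ i ∈ range N, P i j := fun j => sum_nonneg fun i _ => hP0 i j
  have T0 : ∀ j, 0 ≤ T j := fun j => by simp only [hT]; split_ifs; exacts [s0 j, le_rfl]
  have Q0 : ∀ j, 0 ≤ Q j := fun j => sum_nonneg fun t _ => s0 t
  have Qz : ∀ j, N ≤ j → Q j = 0 := fun j hj => by simp [hQ, Ico_eq_empty_of_le hj]
  have Qle : ∀ j, Q j ≤ ∑ i ∈ range N, q i j := fun j => by
    simp only [hQ]
    rw [sum_comm]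
    refine sum_le_sum fun i _ => ?_
    have := tele (T := fun k => P i (j + k)) (Q := fun k => q i (j + k))
      (fun k => hq i (j + k)) (N - j)
    rw [sum_Ico_eq_sum_range]
    simp only [add_zero] at this
    linarith [hq0 i (j + (N - j))]
  have key := one (T := T) (Q := Q) hLa (fun j => ?_) Q0 T0
    (fun j => by simp only [hT]; split_ifs; exacts [hP1 j, zero_le_one]) hw0 hw hh0 hh
    (fun j => ?_) (fun j l hl => ?_) hg0 hg hG N
  · have e : ∑ t ∈ range N, T t * (∑ j ∈ range t, w (j + 1)) ^ 2 =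
        ∑ j ∈ range N, (∑ i ∈ range N, P i j) * (∑ k ∈ range j, w (k + 1)) ^ 2 :=
      sum_congr rfl fun t ht => by simp only [hT, if_pos (mem_range.1 ht)]
    rw [e] at key
    simpa only [hQ, range_eq_Ico] using key
  · by_cases c : j < N
    · simp only [hT, hQ, if_pos c]
      exact sum_eq_sum_Ico_succ_bot c _
    · rw [Qz j (by omega), Qz (j + 1) (by omega)]
      simp [hT, c]
  · by_cases c : j + 1 < N
    · simp only [hT, if_pos c, if_pos (show j < N by omega)]
      refine (mul_le_mul_of_nonneg_left (Qle _) (hh0 _)).trans ?_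
      rw [mul_sum, mul_sum, ← sum_add_distrib]
      exact sum_le_sum fun i _ => hH i j
    · rw [Qz (j + 1) (by omega), mul_zero]
      linarith [T0 j, T0 (j + 1)]
  · have n0 : 0 ≤ (1 / 2 : ℝ) ^ ((l + 1) / 16) * ∑ i ∈ range (l + 1), T (j - 1 - i) :=
      mul_nonneg (by positivity) (sum_nonneg fun i _ => T0 _)
    by_cases c : j < N
    · rcases le_total (a j - l) 0 with c' | c'
      · exact (mul_nonpos_of_nonneg_of_nonpos (Q0 j) c').trans n0
      · refine (mul_le_mul_of_nonneg_right (Qle _) c').trans ?_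
        have e : ∑ k ∈ range (l + 1), T (j - 1 - k) =
            ∑ i ∈ range N, ∑ k ∈ range (l + 1), P i (j - 1 - k) := by
          rw [sum_comm]
          exact sum_congr rfl fun k _ => if_pos (by omega)
        rw [e, sum_mul, mul_sum]
        exact sum_le_sum fun i _ => hR i j l hl
    · rwa [Qz j (by omega), zero_mul]

/-- sums over towers and their sites as sums over anchors -/
theorem anchor (n : ℕ) (U : Finset (ℤ × ℤ)) {F : Mv → ℕ → ℝ}
    (h0 : ∀ m t, 0 ≤ F m t) (h1 : ∀ m t, t ≤ m.2.2 → F m t ≠ 0 → pt m.1 m.2.1 t ∈ U) :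
    ∑ m ∈ TT n, ∑ t ∈ range (m.2.2 + 1), F m t ≤ ∑ b : Bool, ∑ r ∈ U,
      ∑ i ∈ range (2 * n + 1), ∑ j ∈ range (2 * n + 1), F (b, pt b r (-i), i + j) i := by
  rw [sum_sigma']
  simp only [← sum_product']
  refine sum_inj _ _ (fun a => (a.1.1, pt a.1.1 a.1.2.1 a.2, a.2, a.1.2.2 - a.2))
    (fun a ha e => ?_) (fun a ha a' ha' _ _ e => ?_) (fun a ha _ => ?_) fun _ _ => h0 _ _
  · obtain ⟨a1, a2⟩ := mem_sigma.1 ha
    have := (mem_TT.1 a1).2
    have := mem_range.1 a2
    simp only [mem_product, mem_univ, true_and, mem_range]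
    exact ⟨h1 _ _ (by omega) e, by omega, by omega⟩
  · obtain ⟨⟨b, x, l⟩, t⟩ := a
    obtain ⟨⟨b', x', l'⟩, t'⟩ := a'
    have a2 := mem_range.1 (mem_sigma.1 ha).2
    have a3 := mem_range.1 (mem_sigma.1 ha').2
    simp only [Prod.mk.injEq] at e a2 a3
    obtain ⟨rfl, e2, rfl, e4⟩ := e
    obtain rfl : l = l' := by omega
    obtain rfl : x = x' := add_right_cancel e2
    rfl
  · obtain ⟨⟨b, x, l⟩, t⟩ := a
    have a2 := mem_range.1 (mem_sigma.1 ha).2
    simp only at a2 ⊢
    rw [NullP.pt_pt, add_neg_cancel, pt_zero, show t + (l - t) = l by omega]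

variable {μ : Measure Conf} {φ : ℤ × ℤ → ℝ} {U : Finset (ℤ × ℤ)} {lam TV : ℝ}
  {A : Bool → ℤ × ℤ → ℝ}

theorem var_up (φ : ℤ × ℤ → ℝ) (b : Bool) (r : ℤ × ℤ) (k : ℕ) :
    φ r - φ (pt b r k) ≤ ∑ t ∈ range k, ww φ b (pt b r t) := by
  induction k with
  | zero => simp [pt_zero]
  | succ k ih =>
    have := neg_abs_le (φ (pt b r k + dir b) - φ (pt b r k))
    rw [sum_range_succ, ww, Nat.cast_succ, ← H45.pt_add]
    linarith

theorem var_dn (φ : ℤ × ℤ → ℝ) (b : Bool) (r : ℤ × ℤ) (k : ℕ) :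
    φ r - φ (pt b r (-k)) ≤ ∑ t ∈ range k, ww φ b (pt b r (-(t + 1 : ℕ))) := by
  induction k with
  | zero => simp [pt_zero]
  | succ k ih =>
    have := le_abs_self (φ (pt b r (-(k + 1 : ℕ)) + dir b) - φ (pt b r (-(k + 1 : ℕ))))
    have e : pt b r (-(k + 1 : ℕ)) + dir b = pt b r (-k) := by
      rw [H45.pt_add]; congr 1; push_cast; ring
    rw [sum_range_succ, ww]
    rw [e] at this ⊢
    linarith

theorem os_sq (φ : ℤ × ℤ → ℝ) (b : Bool) (r : ℤ × ℤ) (i j : ℕ) :
    os φ (b, pt b r (-i), i + j) i ^ 2 ≤ 2 * ww φ b r ^ 2 +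
      2 * (∑ k ∈ range j, ww φ b (pt b r (k + 1 : ℕ))) ^ 2 +
        (∑ k ∈ range i, ww φ b (pt b r (-(k + 1 : ℕ)))) ^ 2 := by
  have h0 := os_nonneg φ (b, pt b r (-i), i + j) (t := i) (Nat.le_add_right i j)
  obtain ⟨t, ht, e⟩ := ps_ex φ (b, pt b r (-i), i + j)
  simp only [os, e, NullP.pt_pt, neg_add_cancel, pt_zero] at h0 ht ⊢
  have w0 := ww_nonneg φ b
  set X := ∑ k ∈ range j, ww φ b (pt b r (k + 1 : ℕ)) with hX
  set Y := ∑ k ∈ range i, ww φ b (pt b r (-(k + 1 : ℕ))) with hY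
  rcases le_total t i with c | c
  · have h1 := var_dn φ b r (i - t)
    rw [Nat.cast_sub c, show -((i : ℤ) - t) = -i + t by ring] at h1
    have h2 : ∑ k ∈ range (i - t), ww φ b (pt b r (-(k + 1 : ℕ))) ≤ Y :=
      sum_le_sum_of_subset_of_nonneg (range_subset_range.2 (by omega)) fun _ _ _ => w0 _
    have := pow_le_pow_left₀ h0 (h1.trans h2) 2
    nlinarith [sq_nonneg X, sq_nonneg (ww φ b r)]
  · have h1 := var_up φ b r (t - i)
    rw [Nat.cast_sub c, show (t : ℤ) - i = -i + t by ring] at h1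
    have h2 : ∑ k ∈ range (t - i), ww φ b (pt b r k) ≤ ∑ k ∈ range (j + 1), ww φ b (pt b r k) :=
      sum_le_sum_of_subset_of_nonneg (range_subset_range.2 (by omega)) fun _ _ _ => w0 _
    rw [sum_range_succ', Nat.cast_zero, pt_zero, ← hX] at h2
    have := pow_le_pow_left₀ h0 (h1.trans h2) 2
    nlinarith [sq_nonneg Y, sq_nonneg (X - ww φ b r)]

theorem hw2 (h : Dat μ φ U lam TV A) (b : Bool) (z : ℤ × ℤ) :
    ww φ b z ≤ 2 * lam * (A (!b) z + cc μ b z + cc μ b (z - dir b)) ∧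
      0 ≤ A (!b) z + cc μ b z + cc μ b (z - dir b) ∧
      A (!b) z + cc μ b z + cc μ b (z - dir b) ≤ A (!b) z + 2 := by
  have := h.hw b z
  have := mul_nonneg h.lam0 (h.A0 (!b) z)
  have := h.A0 (!b) z
  have := cc_nonneg μ b z
  have := cc_nonneg μ b (z - dir b)
  have := cc_le h.gib b z
  have := cc_le h.gib b (z - dir b)
  refine ⟨by nlinarith, by linarith, by linarith⟩

section
variable {g : ℕ → ℝ} {G : ℝ} (hg0 : ∀ i, 0 ≤ g i)
  (hg : ∀ i l : ℕ, i ≤ l → ((l : ℝ) + 1) * (1 / 2) ^ ((l + 1) / 16) ≤ g i)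
  (hG : ∀ M, ∑ i ∈ range M, g i ≤ G)
include hg0 hg hG

theorem half_up (h : Dat μ φ U lam TV A) (b : Bool) (r : ℤ × ℤ) (N : ℕ) :
    ∑ j ∈ range N, (∑ i ∈ range N, pp μ (b, pt b r (-i), i + j)) *
        (∑ k ∈ range j, ww φ b (pt b r (k + 1 : ℕ))) ^ 2 ≤
      (30 + 16 * G) * (2 * lam) ^ 2 * FF μ N b r +
        4 * (2 * lam) * ∑ j ∈ range N, ww φ b (pt b r (j + 1 : ℕ)) * g j := by
  have := h.gib.1
  have e : ∀ i j : ℕ, pt b (pt b r (-i)) (i + j : ℕ) = pt b r j := fun i j => by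
    rw [NullP.pt_pt]; congr 1; push_cast; ring
  rw [FF, sum_comm (s := range N) (t := range N) (f := fun i j => pp μ (b, pt b r (-i), i + j))]
  refine two (P := fun i j => pp μ (b, pt b r (-i), i + j))
    (q := fun i j => μ.real {f | Rdg b (pt b r (-i)) (i + j) f})
    (w := fun j => ww φ b (pt b r j)) (a := fun j => A (!b) (pt b r j))
    (h := fun j => A (!b) (pt b r j) + cc μ b (pt b r j) + cc μ b (pt b r j - dir b)) N
    (by linarith [h.lam0]) (fun i j => q_succ h.gib b _ _) (fun _ _ => measureReal_nonneg)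
    (fun _ _ => pp_nonneg _ _) (fun j => ?_) (fun _ => ww_nonneg _ _ _) (fun _ => (hw2 h b _).1)
    (fun _ => (hw2 h b _).2.1) (fun _ => (hw2 h b _).2.2) (fun i j => ?_) (fun i j l hl => ?_)
    hg0 hg hG
  · have h1 := (sum_end h.gib b (pt b r j) (Ico j (N + j))).trans measureReal_le_one
    rw [sum_Ico_eq_sum_range, Nat.add_sub_cancel] at h1
    refine le_trans (le_of_eq (sum_congr rfl fun i _ => ?_)) h1
    rw [pp, p_rev h.gib, NullP.pt_pt, add_comm j i]
    congr 5
    push_cast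
    ring
  · have h1 := ah h.gib h.tri b (!b) (pt b r (-i)) (i + j)
    have h2 := hz h.gib h.tri b (pt b r (-i)) (i + (j + 1))
    have h3 := hz h.gib h.tri b (pt b r (-i)) (i + j)
    have h4 := q_succ h.gib b (pt b r (-i)) (i + j)
    have h5 := pp_nonneg μ (b, pt b r (-i), i + j)
    rw [add_assoc, e] at h1
    rw [e] at h2 h3
    rw [add_assoc] at h4
    have e2 : pt b r (j + 1 : ℕ) - dir b = pt b r j := by
      rw [pt_sub]; congr 1; push_cast; ring
    have h6 := mul_le_mul_of_nonneg_left (h.A1 (!b) (pt b r (j + 1 : ℕ)))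
      (measureReal_nonneg (μ := μ) (s := {f | Rdg b (pt b r (-i)) (i + (j + 1)) f}))
    have h7 := mul_nonneg h5 (cc_nonneg μ b (pt b r j))
    simp only [e2, pp, cc] at h5 h7 ⊢
    rw [h4] at h3
    nlinarith
  · have h1 := H21.corR_al h.gib h.tri b (pt b r (-i)) (m := i + j) (l := l) (by omega)
    rw [e] at h1
    refine (mul_le_mul_of_nonneg_left (sub_le_sub_right (h.A1 _ _) _) measureReal_nonneg).trans
      (h1.trans (le_of_eq ?_))
    congr 1
    exact sum_congr rfl fun k hk => by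
      have := mem_range.1 hk
      rw [pp, show i + j - 1 - k = i + (j - 1 - k) by omega]

theorem half_dn (h : Dat μ φ U lam TV A) (b : Bool) (r : ℤ × ℤ) (N : ℕ) :
    ∑ i ∈ range N, (∑ j ∈ range N, pp μ (b, pt b r (-i), i + j)) *
        (∑ k ∈ range i, ww φ b (pt b r (-(k + 1 : ℕ)))) ^ 2 ≤
      (30 + 16 * G) * (2 * lam) ^ 2 * FF μ N b r +
        4 * (2 * lam) * ∑ i ∈ range N, ww φ b (pt b r (-(i + 1 : ℕ))) * g i := by
  have := h.gib.1
  have e : ∀ i j : ℕ, pt b (pt b r j) (-(i + j : ℕ)) = pt b r (-i) := fun i j => by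
    rw [NullP.pt_pt]; congr 1; push_cast; ring
  have ep : ∀ i j : ℕ, μ.real {f | Av 1 (b, pt b (pt b r j) (-(i + j : ℕ)), i + j) f} =
      pp μ (b, pt b r (-i), i + j) := fun i j => by rw [e, pp, p_rev h.gib]
  rw [FF]
  refine two (P := fun j i => pp μ (b, pt b r (-i), i + j))
    (q := fun j i => μ.real {f | Vly b (pt b r j) (i + j) f})
    (w := fun i => ww φ b (pt b r (-i))) (a := fun i => A (!b) (pt b r (-i)))
    (h := fun i => A (!b) (pt b r (-i)) + cc μ b (pt b r (-i)) + cc μ b (pt b r (-i) - dir b)) N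
    (by linarith [h.lam0]) (fun j i => ?_) (fun _ _ => measureReal_nonneg)
    (fun _ _ => pp_nonneg _ _) (fun i => ?_) (fun _ => ww_nonneg _ _ _) (fun _ => (hw2 h b _).1)
    (fun _ => (hw2 h b _).2.1) (fun _ => (hw2 h b _).2.2) (fun j i => ?_) (fun j i l hl => ?_)
    hg0 hg hG
  · rw [q'_succ h.gib, ep, add_right_comm]
  · have h1 := (sum_start h.gib b (pt b r (-i)) (Ico i (N + i))).trans measureReal_le_one
    rwa [sum_Ico_eq_sum_range, Nat.add_sub_cancel] at h1
  · have h1 := ah' h.gib h.tri b (!b) (pt b r j) (i + j)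
    have h2 := hz' h.gib h.tri b (pt b r j) (i + 1 + j)
    have h3 := hz' h.gib h.tri b (pt b r j) (i + j)
    have h4 := q'_succ h.gib b (pt b r j) (i + j)
    have h5 := pp_nonneg μ (b, pt b r (-i), i + j)
    rw [ep, add_right_comm, e] at h1
    rw [ep, e] at h2 h3
    rw [ep, add_right_comm] at h4
    have e2 : pt b r (-(i + 1 : ℕ)) + dir b = pt b r (-i) := by
      rw [H45.pt_add]; congr 1; push_cast; ring
    have e3 : ∀ z, μ.real {f | Hi b z f} = cc μ b (z - dir b) := fun z => by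
      simp only [cc, ← hi_iff, sub_add_cancel]
    rw [e3] at h2 h3
    rw [← e2, add_sub_cancel_right] at h3
    have h6 := mul_le_mul_of_nonneg_left (h.A2 (!b) (pt b r (-(i + 1 : ℕ))))
      (measureReal_nonneg (μ := μ) (s := {f | Vly b (pt b r j) (i + 1 + j) f}))
    have h7 := mul_nonneg h5 (cc_nonneg μ b (pt b r (-(i + 1 : ℕ))))
    rw [h4, e2] at h3
    nlinarith
  · have h1 := H21.corV_al h.gib h.tri b (pt b r j) (m := i + j) (l := l) (by omega)
    rw [e] at h1
    refine (mul_le_mul_of_nonneg_left (sub_le_sub_right (h.A2 _ _) _) measureReal_nonneg).trans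
      (h1.trans (le_of_eq ?_))
    congr 1
    exact sum_congr rfl fun k hk => by
      have := mem_range.1 hk
      rw [show i + j - 1 - k = i - 1 - k + j by omega, ep]

end

/-- the flux through a site is small on a rod -/
theorem ff_A (h : Dat μ φ U lam TV A) (b c : Bool) (r : ℤ × ℤ) (N : ℕ) :
    FF μ N b r * A c r ≤ 2 := by
  have := h.gib.1
  have h1 : FF μ N b r ≤ ∑ i ∈ range (N + 1), μ.real {f | Rdg b (pt b r (-i)) i f} := by
    refine le_trans (sum_le_sum fun i _ => ?_) (sum_le_sum_of_subset_of_nonneg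
      (range_subset_range.2 N.le_succ) fun _ _ _ => measureReal_nonneg)
    have := tele (T := fun j => pp μ (b, pt b r (-i), i + j))
      (Q := fun j => μ.real {f | Rdg b (pt b r (-i)) (i + j) f})
      (fun j => q_succ h.gib b _ _) N
    simp only [add_zero] at this
    linarith [measureReal_nonneg (μ := μ) (s := {f | Rdg b (pt b r (-i)) (i + N) f})]
  rw [sum_range_succ'] at h1
  have h2 := dual h.gib h.tri b c r (range N)
  have h3 := h.a0 c r
  have h4 : μ.real {f | Rdg b (pt b r (-(0 : ℕ))) 0 f} ≤ μ.real {f | ¬ Hi c r f} := by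
    refine real_mono h.gib fun f hf hr => (not_hi hf c r).2 ?_
    simp only [Nat.cast_zero, neg_zero, pt_zero, Set.mem_ofPred_eq] at hr
    by_cases e : c = b
    · rw [e]; exact hr.2.1
    · rw [show c = !b by cases b <;> cases c <;> simp at e ⊢]; exact hr.2.2.2
  have h5 := mul_le_mul_of_nonneg_left (h.A1 c r) (sum_nonneg fun l (_ : l ∈ range N) =>
    measureReal_nonneg (μ := μ) (s := {f | Rdg b (pt b r (-(l + 1 : ℕ))) (l + 1) f}))
  have h6 := mul_le_mul_of_nonneg_right h1 (h.A0 c r)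
  have h7 := mul_le_mul_of_nonneg_right h4 (h.A0 c r)
  nlinarith

theorem tv_shift (h : Dat μ φ U lam TV A) (b : Bool) (k : ℤ) :
    ∑ r ∈ U, ww φ b (pt b r k) ≤ TV := by
  have := h.tv b (U.image fun r => pt b r k)
  rwa [sum_image (g := fun r => pt b r k) fun x _ y _ e => add_right_cancel e] at this

theorem q_row : QStmt := by
  obtain ⟨g, G, hg0, hg, hG⟩ := exists_g
  have G0 : 0 ≤ G := by simpa using hG 0
  refine ⟨850 + 384 * G, by positivity, fun μ φ U lam TV A h FM hF n => ?_⟩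
  have F0 : 0 ≤ FM := by simpa [FF] using hF 0 true
  have T0 := h.tv0
  have l0 := h.lam0
  set N := 2 * n + 1 with hN
  have hL : LL μ n U ≤ 2 * FM := by
    simp only [LL, mul_sum]
    refine (anchor n U (F := fun m t => pp μ m * ind (pt m.1 m.2.1 t ∈ U))
      (fun m t => mul_nonneg (pp_nonneg _ _) (ind_nonneg _)) fun m t _ e => ?_).trans ?_
    · by_contra c
      exact e (by simp [ind, c])
    · have k : ∀ b, ∑ r ∈ U, ∑ i ∈ range N, ∑ j ∈ range N,
          pp μ (b, pt b r (-i), i + j) * ind (pt b (pt b r (-i)) i ∈ U) ≤ FM := fun b =>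
        le_trans (sum_le_sum fun r _ => sum_le_sum fun i _ => sum_le_sum fun j _ =>
          mul_le_of_le_one_right (pp_nonneg _ _) (by unfold ind; split_ifs <;> norm_num)) (hF N b)
      rw [Fintype.sum_bool]
      linarith [k true, k false]
  have sg : ∀ (b : Bool) (s : ℕ → ℤ),
      ∑ r ∈ U, ∑ j ∈ range N, ww φ b (pt b r (s j)) * g j ≤ G * TV := fun b s => by
    rw [sum_comm]
    calc _ ≤ ∑ j ∈ range N, TV * g j := sum_le_sum fun j _ => by
          rw [← sum_mul]; exact mul_le_mul_of_nonneg_right (tv_shift h b _) (hg0 j)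
      _ ≤ _ := by rw [← mul_sum, mul_comm]; exact mul_le_mul_of_nonneg_right (hG N) T0
  have hQ : QQ μ n φ ≤ 2 * ((8 + 24 * G) * (lam * TV) + (424 + 192 * G) * (lam ^ 2 * FM)) := by
    simp only [QQ, mul_sum]
    refine (anchor n U (F := fun m t => pp μ m * os φ m t ^ 2)
      (fun m t => mul_nonneg (pp_nonneg _ _) (sq_nonneg _)) fun m t ht e => ?_).trans ?_
    · refine h.supp _ fun c => e ?_
      have a1 := os_nonneg φ m ht
      have a2 := ps_nonneg h.h0 m
      rw [os, c] at a1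
      rw [os, c, show ps φ m = 0 by linarith]
      simp
    · have k : ∀ b, ∑ r ∈ U, ∑ i ∈ range N, ∑ j ∈ range N,
          pp μ (b, pt b r (-i), i + j) * os φ (b, pt b r (-i), i + j) i ^ 2 ≤
          (8 + 24 * G) * (lam * TV) + (424 + 192 * G) * (lam ^ 2 * FM) := fun b => by
        have k1 : ∀ r ∈ U, ∑ i ∈ range N, ∑ j ∈ range N,
            pp μ (b, pt b r (-i), i + j) * os φ (b, pt b r (-i), i + j) i ^ 2 ≤
            8 * lam * ww φ b r + (424 + 192 * G) * lam ^ 2 * FF μ N b r +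
              16 * lam * ∑ j ∈ range N, ww φ b (pt b r (j + 1 : ℕ)) * g j +
              8 * lam * ∑ j ∈ range N, ww φ b (pt b r (-(j + 1 : ℕ))) * g j := fun r _ => by
          have a1 := half_up hg0 hg hG h b r N
          have a2 := half_dn hg0 hg hG h b r N
          have a3 := ff_A h b (!b) r N
          have a4 := (h.edge' b r).1
          have a5 : 0 ≤ FF μ N b r := sum_nonneg fun _ _ => sum_nonneg fun _ _ => pp_nonneg _ _
          have a6 := mul_le_mul_of_nonneg_right a4 a5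
          have a7 := mul_le_mul_of_nonneg_left a3 (mul_nonneg l0 (ww_nonneg φ b r))
          have a8 := sum_le_sum fun i (_ : i ∈ range N) => sum_le_sum fun j (_ : j ∈ range N) =>
            mul_le_mul_of_nonneg_left (os_sq φ b r i j) (pp_nonneg μ (b, pt b r (-i), i + j))
          simp only [mul_add, sum_add_distrib] at a8
          simp only [sum_mul] at a1 a2
          rw [sum_comm] at a1
          have e1 : ∑ i ∈ range N, ∑ j ∈ range N,
              pp μ (b, pt b r (-i), i + j) * (2 * ww φ b r ^ 2) =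
              2 * (ww φ b r ^ 2 * FF μ N b r) := by
            simp only [FF, ← sum_mul]; ring
          have e2 : ∑ i ∈ range N, ∑ j ∈ range N, pp μ (b, pt b r (-i), i + j) *
              (2 * (∑ k ∈ range j, ww φ b (pt b r (k + 1 : ℕ))) ^ 2) =
              2 * ∑ i ∈ range N, ∑ j ∈ range N, pp μ (b, pt b r (-i), i + j) *
                (∑ k ∈ range j, ww φ b (pt b r (k + 1 : ℕ))) ^ 2 := by
            simp only [mul_sum (a := (2 : ℝ)), mul_left_comm]
          rw [e1, e2] at a8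
          nlinarith
        refine (sum_le_sum k1).trans ?_
        simp only [sum_add_distrib, ← mul_sum]
        have b1 := mul_le_mul_of_nonneg_left (h.tv b U) l0
        have b2 := mul_le_mul_of_nonneg_left (hF N b)
          (show 0 ≤ (424 + 192 * G) * lam ^ 2 by positivity)
        have b3 := mul_le_mul_of_nonneg_left (sg b fun j => (j + 1 : ℕ)) l0
        have b4 := mul_le_mul_of_nonneg_left (sg b fun j => -(j + 1 : ℕ)) l0
        nlinarith
      rw [Fintype.sum_bool]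
      linarith [k true, k false]
  have c1 := mul_le_mul_of_nonneg_left hL (sq_nonneg lam)
  have c2 := mul_nonneg l0 T0
  have c3 := mul_nonneg (sq_nonneg lam) F0
  have c4 := mul_nonneg (sq_nonneg lam) (Nat.cast_nonneg (α := ℝ) U.card)
  have c5 := mul_nonneg G0 c2
  have c6 := mul_nonneg G0 c4
  rw [Bd]
  nlinarith

end Pool.Agent.MP_151d89_pr.H20
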